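import Pool.Agent.W543.WM.Asym

/-!
# The `ℓ`-adic monodromy-weight conjecture: an asymptotic criterion

`P` is a class of smooth projective varieties over a `p`-adic field (the generic fibres of
projective semistable schemes), stable under products, with the monodromy operators and the
weight parts of their cohomology.
-/

universe u v

namespace Pool.Agent.Results.MP_cd312e_ag.AsymptoticCriterion

open Pool.Agent.W543.WM

theorem result {F : Type u} [Field F] (P : ProductClass.{u, v} F) (hP : IsKunneth P) :
    -- the conjecture for all varieties of the class is equivalent to any bound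
    -- `i + o(dim X) + O(1)` for the weights of the kernel of `N` on `H^i(X)`
    ((∀ X i, (P.H X i).Pure i) ↔
      ∀ ε : ℝ, 0 < ε → ∃ C : ℝ, ∀ X (i w : ℤ), KernelWeight P X i w →
        (w : ℝ) ≤ i + ε * P.dim X + C) ∧
    -- for one variety `X` and one degree `i`: `H^i(X)` is mw pure of weight `i` as soon as, for
    -- one `k ≥ 1`, all weights of the kernel of `N` on the cohomology of degree `2^k i` of
    -- `X^{2^k}` are smaller than `2^k (i + 1)`
    ∀ (X : P.Obj) (i : ℤ) (k : ℕ), 1 ≤ k →
      (∀ w : ℤ, KernelWeight P (P.square k X) (2 ^ k * i) w → w < 2 ^ k * (i + 1)) →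
        (P.H X i).Pure i :=
  ⟨Asym.asym hP, fun X i k hk h => Asym.pure_of_square hP X i k hk h⟩

end Pool.Agent.Results.MP_cd312e_ag.AsymptoticCriterion
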