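import Pool.Agent.W552.WmTop

/-!
# The monodromy-weight conjecture for strata with transcendental parts from one surface

Let `X` be a projective strictly semistable scheme of relative dimension `n = s + 3` over the ring
of integers of `K`, or a projective log scheme with simple normal crossings over a log point, `Y`
its special fibre. `D` is the cohomology of the strata `Y^(m)`, the disjoint unions of the
`m`-fold intersections of the components: `D.V a w` is `H^(w-a)(Y^(a+1))`. So `Y^(s+1)` has
dimension `3`, `Y^(s+2)` consists of surfaces, `Y^(s+3)` of curves.
-/

set_option autoImplicit false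

namespace Pool.Agent.Results.MP_cd312e_ag.CopiesOfSurface

open Polynomial Pool.Agent.W522.M Pool.Agent.W552.Wm

/-- **The graded pieces of `H^n` of weights `≥ 2n - 2` and `≤ 2`; for `n = 3`, all of `H^3`.** Let
`S` be a surface such that the eigenvalues of Frobenius on the transcendental part of `H²(S)` are
simple. Suppose that the transcendental parts of the surfaces `Y^(n-1)` to which `S` has
correspondences are copies of summands of that of `S`, and that `H²(Y^(n-2))` is generated by
classes of divisors and by `S`, up to classes whose restriction to `Y^(n-1)` vanishes. Then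
`N^r : E_2^(-r) → E_2^r` is bijective in total degree `n` for all `r ≥ n - 2`. (`C` is a curve
whose `H¹` generates that of `Y^(n-1)`; its positivity is Weil's theorem.) -/
theorem result {E : Type} [Field E] [CharZero E] {s : ℕ} (D : Strata E) (hD : IsLog D (s + 3))
    (A : D.Cycles) (hA : A.IsGeometric (s + 3)) (S : Source D s 2) (hS : S.IsGeometric)
    (hO : S.IsOrthogonal A) (F : S.Endo) (q : ℕ) (hq : q ≠ 0) (P : ℤ[X])
    (hF : S.IsFrobenius F q P) (hP : IsSimple P q) (hc : S.HasCopies) (hG : S.GeneratesWith A)
    (C : Source D (s + 1) 1) (hC : C.IsGeometric) (hW : C.Positive) (hC' : C.Generates) :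
    ∀ r, s + 1 ≤ r → D.MonodromyWeight (s + 3) r :=
  copies hD A hA S hS hO hF hq hP hc hG C hC hW hC'

end Pool.Agent.Results.MP_cd312e_ag.CopiesOfSurface
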