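import Pool.Agent.W543.WM.Gal

/-!
# The `ℓ`-adic monodromy-weight conjecture and Galois invariants of weight `-1`

`G` is the collection of the finite extensions `K` of a given `p`-adic field, with, for each `K`,
the class of the generic fibres of projective semistable schemes over `O_K`, the monodromy
operators, the weight parts and the Frobenius operators of their cohomology with coefficients
in `F`, an algebraic closure of `ℚ_ℓ`.
-/

universe u v

namespace Pool.Agent.Results.MP_cd312e_ag.GaloisInvariants

open Pool.Agent.W543.WM

theorem result {F : Type u} [Field F] [CharZero F] [IsAlgClosed F] (G : GaloisClass.{u, v} F)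
    (hD : ∀ K, IsGeometric (G.D K)) (hG : IsFrobenius G) (hT : HasTwists G) :
    -- the conjecture for all `K` and all `X` over `K` is equivalent to the vanishing of
    -- `H^0(G_K, H^{2j-1}(X)(j))` for all `K`, `X` and `j`
    (∀ K X i, ((G.D K).H X i).Pure i) ↔
      ∀ K X (j : ℕ), G.NoInvariants K X (2 * j - 1) j :=
  galois_invariants hD hG hT

end Pool.Agent.Results.MP_cd312e_ag.GaloisInvariants
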