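import Pool.Agent.W522.G.G9

/-!
# The monodromy-weight conjecture under multiplicity one

Let `X` be projective with strictly semistable reduction, of dimension `n`, over a local field whose
residue field has `q` elements, `Y^(m)` the disjoint union of the intersections of `m` components of
the special fibre. `V a w` is the `ℓ`-adic cohomology group `H^(w-a)(Y^(a+1))`; the column `p` of the
`E_1`-term of the weight spectral sequence in total degree `w` is the sum of the `V a w`, `a ≥ |p|`,
`a - p` even. The monodromy-weight conjecture for `H^w(X)` says that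
`N^r : E_2^(-r, w+r) → E_2^(r, w-r)` is bijective for all `r ≥ 1` (`D.MonodromyWeight w r`).
-/

set_option autoImplicit false

namespace Pool.Agent.Results.MP_cd312e_ag.MultiplicityOne

open Pool.Agent.W522.M

/-- **The monodromy-weight conjecture under multiplicity one.** Suppose that for `m ≥ 2` the
eigenvalues of Frobenius on the cohomology of `Y^(m)` in the middle degree `dim Y^(m)`, and in the
degree below, are simple, except possibly `q^j` in degree `2 j` (`D.MultiplicityOne n q`). Nothing
is supposed on the cohomology of the components.

(1) `N^r : E_2^(-r, w+r) → E_2^(r, w-r)` is bijective for all `w` and `r ≥ 1`, `w - r` odd.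

(2) If `w - r` is even, it is bijective outside of the eigenvalue `q^((w-r)/2)` of Frobenius.

(3) If the conjecture of Tate holds for divisors on the components and their intersections, it is
bijective for all `w` and `r ≥ 1`, if `n ≤ 4`, and for all `n`, if `w ≤ r + 2` or
`2 n - w ≤ r + 2`. -/
theorem result {E : Type} [Field E] [CharZero E] {n q : ℕ} (hq : q ≠ 0) (D : Strata E)
    (hD : D.IsProjective n q) (hM : D.MultiplicityOne n q) :
    (∀ w r, w ≤ 2 * n → 1 ≤ r → Odd (w + r) → D.MonodromyWeight w r) ∧
    (∀ w r, w ≤ 2 * n → 1 ≤ r → Even (w + r) → D.BijectiveOutsideTate q w r) ∧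
    (∀ A : D.Cycles, A.IsGeometric n → (∀ a, A.TateDivisors q a) →
      ∀ w r, w ≤ 2 * n → 1 ≤ r → (n ≤ 4 ∨ w ≤ r + 2 ∨ 2 * n ≤ w + r + 2) →
        D.MonodromyWeight w r) :=
  mult_final hq hD hM

end Pool.Agent.Results.MP_cd312e_ag.MultiplicityOne
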